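import Mathlib
import Pool.Agent.X199.FTVS3

/-!
# If the fourth level of a free topological vector space is a k-space, so are all levels
-/

set_option autoImplicit false

open Set Topology TopologicalSpace

universe u

namespace Pool.Agent.Results.MP_7b06ad_gt.LevelFourKSpace

open Pool.Agent.X199.FT

/-- Let `X` be metrizable and let `(V, i)` be the free topological vector space over `X`. If
`sp_4(X)` is a `k`-space then every `sp_n(X)` is a `k`-space. -/
theorem result (X : Type u) [TopologicalSpace X] [MetrizableSpace X] (V : Type u)
    [AddCommGroup V] [Module ℝ V] [TopologicalSpace V] (i : X → V) (hV : IsFreeTVS X V i)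
    (h : KSpace (sp i 4)) : ∀ n : ℕ, KSpace (sp i n) := by
  obtain ⟨h1, h2⟩ := hV.of_kSpace (by norm_num) h
  exact fun n => hV.kSpace n

end Pool.Agent.Results.MP_7b06ad_gt.LevelFourKSpace
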